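import Pool.Agent.H848.GO.Final

/-!
# One number field governs the poles for all powers of a variety over all number fields

Let `X` be a smooth projective variety of dimension `d` over a number field `K`, `N i` its Betti
numbers.  For every sequence `w = ((i_1, k_1), …, (i_r, k_r))` of even weight `2m = ∑ i_j k_j` we
consider the L-functions `L(w ⊗ χ, s)` of the representation
`Λ^{k_1} H^{i_1}(X) ⊗ ⋯ ⊗ Λ^{k_r} H^{i_r}(X)`, a direct factor of `H^{2m}` of a power of `X`, twisted by
the Artin representations `χ` of the absolute Galois group of `K`, and the L-functions `L(w / F, s)`
over the number fields `F ⊇ K`.  Tate's conjecture for the powers of `X` predicts the orders of all of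
them at `s = m + 1`.

Theorem.  Assume that for every `w` of even weight and every irreducible `χ` the order of `L(w ⊗ χ, s)`
at `s = m + 1` exists.  Let `L / K` be a finite extension (over which, say, all algebraic classes on all
powers of `X` are defined).  Then there is ONE finite Galois extension `M ⊇ L` of `K` with the following
properties, for all `w` at once.

* If the irreducible Artin representation `χ` does not factor through `Gal(M / K)`, then `L(w ⊗ χ, s)`
  has neither a zero nor a pole at `s = m + 1`.
* For every number field `F ⊇ K` the order of `L(w / F, s)` at `s = m + 1` exists, and it is the order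
  of `L(w / F ∩ M, s)`.
* So Tate's formula for `w` over `F` is equivalent to Tate's formula for `w` over `F ∩ M`: the formulas
  over the finitely many subfields of `M` imply those over all number fields, for all `w`.

This is an analytic counterpart of Serre's theorem that the image of Galois on the cohomology of `X` is
connected over a finite extension of `K`.  For a fixed `w` only finitely many `χ` can occur by Bessel's
inequality, but with a bound which grows with `w`.  In the proof the orders of the twists are organised
in class functions `Θ_l` of the Galois group, `l` a character of the torus of the families of Frobenius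
eigenvalues; for each element `g` the multiplicities of the eigenvalues `exp(2πiq)` of `g` give an integer
valued positive definite function of `(l, q)`, there are only countably many such functions (a positive
definite case of Cohen's idempotent theorem), and so on a set of almost full Haar measure all `Θ_l` are
linear combinations of one finite family of characteristic functions.
-/

set_option autoImplicit false

namespace Pool.Agent.Results.MP_058a58_ag.OneFieldForAllPowers

open NumberField IsDedekindDomain
open Pool.Agent.H848.GO

theorem result {K : Type} [Field K] [NumberField K] {n : ℕ}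
    -- a projective variety over `K` and the numbers `d` and `N i`
    (X : Set (MvPolynomial (Fin n) (𝓞 K))) (d : ℕ) (N : ℕ → ℕ)
    -- the hypothesis: the orders of the L-functions `L(w ⊗ χ, s)` exist, for `w` of even weight and
    -- `χ` an irreducible Artin representation
    (H : ∀ (r : ℕ) (w : Fin r → Fin (2 * d + 1) × ℕ), Even (weight w) →
      ∀ (k : ℕ) (χ : Representation ℂ Gal(AlgebraicClosure K/K) (Fin k → ℂ)), IsArtin χ →
        χ.IsIrreducible → ∃ m : ℤ, TwistedPole X d N w χ m)
    -- a number field, to be contained in `M`
    (L : IntermediateField K (AlgebraicClosure K)) (hL : FiniteDimensional K L) :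
    ∃ M : IntermediateField K (AlgebraicClosure K),
      FiniteDimensional K M ∧ IsGalois K M ∧ L ≤ M ∧
      -- neither a zero nor a pole if `χ` does not factor through `Gal(M / K)`
      (∀ (r : ℕ) (w : Fin r → Fin (2 * d + 1) × ℕ), Even (weight w) →
        ∀ (k : ℕ) (χ : Representation ℂ Gal(AlgebraicClosure K/K) (Fin k → ℂ)), IsArtin χ →
          χ.IsIrreducible → (∃ g ∈ M.fixingSubgroup, χ g ≠ 1) →
          ∀ m : ℤ, TwistedPole X d N w χ m ↔ m = 0) ∧
      -- the orders over a number field `F` exist, and they are the orders over `F ∩ M`
      (∀ F : IntermediateField K (AlgebraicClosure K), FiniteDimensional K F →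
        ∀ (r : ℕ) (w : Fin r → Fin (2 * d + 1) × ℕ), Even (weight w) →
          ∃ m : ℤ, ∀ m' : ℤ, (PoleOver X d N w F m' ↔ m' = m) ∧
            (PoleOver X d N w (F ⊓ M : IntermediateField K (AlgebraicClosure K)) m' ↔ m' = m)) ∧
      -- Tate's formula over `F` is equivalent to Tate's formula over `F ∩ M`
      ∀ F : IntermediateField K (AlgebraicClosure K), FiniteDimensional K F →
        ∀ (r : ℕ) (w : Fin r → Fin (2 * d + 1) × ℕ), Even (weight w) →
          ∀ (V : Type) [AddCommGroup V] [Module ℚ V]
            (ρ : Representation ℚ Gal(AlgebraicClosure K/K) V),
            (∀ g ∈ L.fixingSubgroup, ρ g = 1) →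
            rank ρ F = rank ρ (F ⊓ M) ∧
            (PoleOver X d N w F (rank ρ F) ↔
              PoleOver X d N w (F ⊓ M : IntermediateField K (AlgebraicClosure K))
                (rank ρ (F ⊓ M))) := by
  obtain ⟨M, h1, h2, h3, h4, h5⟩ := main H L hL
  refine ⟨M, h1, h2, h3, h4, fun F hF => (h5 F hF).1, fun F hF r w hw V _ _ ρ hρ => ?_⟩
  have h6 := (h5 F hF).2 V ρ hρ
  obtain ⟨m, hm⟩ := (h5 F hF).1 r w hw
  refine ⟨h6, ?_⟩
  rw [← h6, (hm _).1, (hm _).2]

end Pool.Agent.Results.MP_058a58_ag.OneFieldForAllPowers
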