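import Pool.Agent.H367.OS.GDeg

/-!
# Tate's conjecture on poles and one sequence of cubic hypersurfaces

A relation `r` of size `m` is one of the equations `x_i x_j = x_l`, `x_i + x_j = x_l`, `x_i = 1` with
`i, j, l < m`; the relations are numbered, the number of `r` is `ν(r)` (`relNum`). Let `G_m` be the
following polynomial with integral coefficients (`univG ℤ m`). There are variables `x_i` and `z_ij` for
`i, j < m`, a variable `c_r` for every relation `r`, and variables `y_{r,l}` for all relations `r` and
`l < (m + 1) 2 ^ ν(r)`. The equations (`eqnG`) are

  `z_ij - x_i x_j`,  `c_r ^ 2 - c_r`,  `c_r ρ_r`,  `(1 - c_r) y_{r,l}`,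

where `ρ_r` is the linear polynomial `z_ij - x_l`, `x_i + x_j - x_l` or `x_i - 1` of the relation.
`G_m` is the sum of the equations multiplied by further variables `t_e`, one for each equation. It has
degree three. Let `C_m` be the affine cubic hypersurface `G_m = 1` (`cubG R m` over the ring `R`); it is
smooth over the integers.

For a separated scheme `X` of finite type over `ℚ` and an integer `q` let

* `L_q(X, s) = ∏_i L(Gr^W_{2q} H^{2q+i}_c(X), s)^{(-1)^i}`, the alternating product of the `L`-functions
  (the Euler products, which converge for `Re s > q + 1`) of the parts of weight `2q` of the cohomology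
  with compact supports; `D.L q X t` is the value at `s = q + 1 + t`, for real `t > 0`;
* `D.χ q X = ∑_i (-1)^i rank H^i(B^q(W(X)))`, where `W(X)` is the weight complex of `X` (Gillet, Soulé)
  and `B^q` the group of cycles of codimension `q` modulo homological equivalence.

For a smooth projective variety `Y` over `ℚ` these are `L(H^{2q}(Y), s)` and the rank of `B^q(Y)`, because
`H^{2q+i}(Y)` has the weight `2q + i`, and `W(Y) = h(Y)`. The formula of index `q` for `X` (`Pole D q X`)
says that the function `L_q(X, s)` has a pole of order `D.χ q X` at `s = q + 1` (in the sense of the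
problem); for smooth projective `Y` this is Tate's conjecture of question Q1 for `Y` and `m = q`.

**Theorem.** Let `E_m` be the number of the equations, and for `N ∈ ℕ` let
`idx m q N = q + (m + 1) N + E_m - 1`.

(1) For every `q ≥ 0` the following are equivalent: the formulas of the indices `idx m q N`, `N ∈ ℕ`, are
true for the hypersurface `C_m` over `ℚ`, for infinitely many `m`; Tate's conjecture of question Q1 is
true for the cycles of codimension `q` on all smooth projective varieties over `ℚ`; the formula of
index `q` is true for all separated schemes of finite type over `ℚ`.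

(2) The same with all indices at once: infinitely many of the hypersurfaces `C_m`, with all indices, are
sufficient for question Q1 in all codimensions.

(3) For every affine scheme `Spec B` of finite type over `ℚ` there is an `m₀` such that for all `m ≥ m₀`
there is an `N` such that for all `0 ≤ q ≤ m` the formula of index `q` for `Spec B` is **equivalent** to the
formula of index `idx m q N` for `C_m`. For every separated scheme `X` of finite type there is an `m₀`
such that for every `m ≥ m₀` the formulas for `C_m` imply the formulas for `X`.

(4) `G_m` has integral coefficients and degree at most three, and `C_m` is smooth over all rings.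

The hypotheses are standard: the weight complex (and the cohomology with compact supports) has
localisation triangles, it is shifted and twisted by affine bundles, and for a scheme of dimension at
most `n` it consists of motives of dimension at most `n` (`low`, `high`).

Idea of the proof. The projection of `C_m` to the affine space with the coordinates `x, z, c, y` is an
affine bundle over the complement of the zero set `W_m` of the equations. The scheme `W_m` is the
disjoint union, over all sets `s` of relations (`c_r = 1` for `r ∈ s` and `c_r = 0` for the others), of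
the products `X_s × 𝔸 ^ ((m + 1) N(s))`, where `X_s` is the affine scheme defined by the relations in
`s` and `N(s) = ∑_{r ∈ s} 2 ^ ν(r)`. The numbers `N(s)` are different, and the dimension of `X_s` is at
most `m`. So the invariant of `W_m` with the index `q + (m + 1) N(s)`, `0 ≤ q ≤ m`, is the invariant of
`X_s` with the index `q`; the other components do not contribute. Every affine scheme of finite type
over a prime field is an `X_s`, for all large `m`.

The universal system of relations is the one of helper854 (`Pool.Agent.H854.SQ`).
-/

set_option autoImplicit false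

open CategoryTheory CategoryTheory.Limits AlgebraicGeometry Pool.Agent.Y116.UV Pool.Agent.Z125.UN
  Pool.Agent.Q193.LT Pool.Agent.H854.SQ Pool.Agent.H367.OS

namespace Pool.Agent.Results.MP_058a58_ag.OneSequenceOverTheIntegers

/-- The formula of index `q`. -/
def Pole (D : PoleData ℚ) (q : ℤ) (X : Sch ℚ) : Prop := HasPole (D.L q X) (D.χ q X)

/-- **Poles and one sequence of cubic hypersurfaces over the integers.** See the explanations above.
`hH` is Hironaka's theorem; `point` is the known case of the Riemann zeta function. -/
theorem result {D : PoleData ℚ} (hD : IsPoleG D) (hH : Hironaka ℚ)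
    (point : ∀ q, Pole D q (aff ℚ ℚ)) :
    (∀ q : ℕ, List.TFAE [∃ᶠ m in Filter.atTop, ∀ N : ℕ, Pole D (idx m q N) (cubG ℚ m),
      ∀ Y : Sch ℚ, SmoothProj Y → Pole D q Y,
      ∀ X : Sch ℚ, FT True X → Pole D q X]) ∧
    List.TFAE [∃ᶠ m in Filter.atTop, ∀ q, Pole D q (cubG ℚ m),
      ∀ Y : Sch ℚ, SmoothProj Y → ∀ q, Pole D q Y,
      ∀ X : Sch ℚ, FT True X → ∀ q, Pole D q X] ∧
    (∀ (B : Type) [CommRing B] [Algebra ℚ B] [Algebra.FiniteType ℚ B], ∃ m₀ : ℕ, ∀ m, m₀ ≤ m →
      ∃ N : ℕ, ∀ q : ℤ, 0 ≤ q → q ≤ m →
        (Pole D (idx m q N) (cubG ℚ m) ↔ Pole D q (aff ℚ B))) ∧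
    (∀ X : Sch ℚ, FT True X → ∃ m₀ : ℕ, ∀ m, m₀ ≤ m →
      (∀ q, Pole D q (cubG ℚ m)) → ∀ q, Pole D q X) ∧
    ∀ m : ℕ, (univG ℤ m).totalDegree ≤ 3 ∧
      ∀ (R : Type) [CommRing R], MvPolynomial.map (Int.castRingHom R) (univG ℤ m) = univG R m ∧
        Smooth (cubG R m).hom := by
  have hG : Graduated (Pole D) := graduated_pole hD point
  refine ⟨fun q => index_tfae isPrimeField_rat hH hG q, graduated_tfae isPrimeField_rat hH hG,
    fun B _ _ _ => ?_, fun X hX => ?_, cubG_facts⟩
  · obtain ⟨m₀, hm⟩ := exact_index isPrimeField_rat B
    refine ⟨m₀, fun m hm1 => ?_⟩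
    obtain ⟨N, hN⟩ := hm m hm1
    exact ⟨N, fun q h0 h1 => hN _ hG q h0 h1⟩
  · obtain ⟨m₀, hm⟩ := gsingle isPrimeField_rat X hX
    exact ⟨m₀, fun m hm1 h => hm m hm1 _ hG h⟩

end Pool.Agent.Results.MP_058a58_ag.OneSequenceOverTheIntegers
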