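import Pool.Agent.H439.QD.Dist

/-!
# `L(X, s)` near `s = m + 1` over the quadratic fields

Let `X` be a smooth projective variety over a number field `K` (for the problem `K = ℚ`) and
`P_v(T) = det(1 - Frob_v T | H^{2m}(X)^{I_v})`, so that `L(X, s)` is the product of the
`P_v(q_v^{-s})⁻¹`.  For a squarefree integer `d ≠ 1` with quadratic character `χ_d` one has
`L(X_{K(√d)}, s) = L(X, s) L(X ⊗ χ_d, s)` (up to finitely many Euler factors), and Tate's conjecture for
`X` over `K` and over `K(√d)` says that the order of `L(X ⊗ χ_d, s)` at `s = m + 1` is the rank of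
`B^m(X)` minus the rank of `B^m(X_{K(√d)})`.  As all algebraic cycles are defined, up to homological
equivalence, over one finite extension, the rank grows for finitely many fields `K(√d)` only: the
conjecture predicts that `L(X ⊗ χ_d, s)` has neither a zero nor a pole at `s = m + 1`, for all but finitely
many `d`.  Analytic continuation to the line `Re s = m + 1` is not known, nor even that the order exists.

The theorem determines the distribution of the values `L(X ⊗ χ_d, m + 1 + ε + it)`.  Let `X_p` be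
independent random variables with the values `1, -1, 0` and the probabilities `ρ_p/2, ρ_p/2, 1 - ρ_p`,
where `ρ_p = p/(p + 1)` for odd `p` and `ρ_2 = 1/3` (the proportions of the quadratic fields in which `p` is
split, inert, ramified), and `X(n) = ∏ X_p^{v_p(n)}`.

* For every real `t` there is a probability measure `ν` on the complex plane, with `ν({0}) = 0`, such that
  the values `L(X ⊗ χ_d, m + 1 + ε + it)`, for the squarefree `d ≠ 1` with `|d| ≤ x`, have the limiting
  distribution `ν` as `x → ∞` and `ε → 0` with `ε ≥ exp(-x^c)`, for every `c < 1/8`; and `ν` is the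
  limit for `ε → 0` of the distributions of the random Euler products
  `∏_v P_v(X(q_v) q_v^{-(m + 1 + ε + it)})⁻¹`.
* The comparison with the random Euler products is uniform in `|t| ≤ x^A` and
  `exp(-x^c) ≤ ε ≤ 1/2`, and for all but a proportion `η` of the `d` the absolute value
  `|L(X ⊗ χ_d, m + 1 + ε + it)|` is between `1/B` and `B`, where `B` depends on `X` and `η` only.  So for all but a
  proportion `η` of the quadratic fields the functions `L(X_{K(√d)}, s)` and `L(X, s)` are of the same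
  order of magnitude at `m + 1 + ε`: at the scale `exp(-x^c)` the order at `s = m + 1` does not change.
  The trivial bound for `log|L(X ⊗ χ_d, m + 1 + ε)|` is `n N log(1/ε) + O(n N)`, of the size `x^c`.
-/

set_option autoImplicit false

namespace Pool.Agent.Results.MP_058a58_ag.QuadraticBaseChange

open NumberField IsDedekindDomain Polynomial MeasureTheory

section
variable {K : Type} [Field K] [NumberField K]

/-- The Euler product `∏_v P_v(g(q_v) q_v^{-s})⁻¹` over the primes `v` of `K`, where `q_v` is the norm of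
`v` and `g` a function on the positive integers. -/
noncomputable def L (P : HeightOneSpectrum (𝓞 K) → ℂ[X]) (g : ℕ → ℂ) (s : ℂ) : ℂ :=
  ∏' v : HeightOneSpectrum (𝓞 K), ((P v).eval
    (g (Ideal.absNorm v.asIdeal) * ((Ideal.absNorm v.asIdeal : ℕ) : ℂ) ^ (-s)))⁻¹

/-- The polynomials `P_v` have constant term `1`, degree at most `N`, and the inverses of their zeros
have absolute value at most `q_v^m`.  For `P_v = det(1 - Frob_v T | H^{2m}(X)^{I_v})` and
`N = dim H^{2m}(X)` this is the theorem of Deligne at the primes of good reduction; at the other primes it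
is known for `m ≤ 1`, and in general one may put `P_v = 1` there. -/
structure HasWeights (P : HeightOneSpectrum (𝓞 K) → ℂ[X]) (N m : ℕ) : Prop where
  coeff_zero : ∀ v, (P v).coeff 0 = 1
  natDegree_le : ∀ v, (P v).natDegree ≤ N
  le_norm : ∀ v, ∀ z : ℂ, (P v).IsRoot z →
    ((Ideal.absNorm v.asIdeal : ℕ) : ℝ) ^ (-(m : ℝ)) ≤ ‖z‖

end

/-- The quadratic character of `ℚ(√d)`, `d` squarefree, at the prime `p`: the value is `1`, `-1` or `0`
according as `p` is split, inert or ramified. -/
def atPrime (d : ℤ) (p : ℕ) : ℤ :=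
  if p = 2 then (if d % 8 = 1 then 1 else if d % 8 = 5 then -1 else 0) else jacobiSym d p

/-- The quadratic character of `ℚ(√d)`, as a completely multiplicative function on the positive
integers. -/
noncomputable def quad (d : ℤ) (n : ℕ) : ℂ :=
  n.factorization.prod fun p k => ((atPrime d p : ℤ) : ℂ) ^ k

open Classical in
/-- The squarefree integers `d ≠ 1` with `|d| ≤ x`. -/
noncomputable def fields (x : ℕ) : Finset ℤ :=
  (Finset.Icc (-(x : ℤ)) x).filter fun d => Squarefree d ∧ d ≠ 1

/-- The proportion of the quadratic fields in which `p` is unramified. -/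
noncomputable def ρ (p : ℕ) : ℝ := if p = 2 then 1 / 3 else (p : ℝ) / (p + 1)

/-- The sequences `ω = (ω_p)` of points of the unit interval, indexed by the primes, with the product of
the uniform measures: the `ω_p` are independent and uniformly distributed. -/
noncomputable def unif : Measure (Nat.Primes → unitInterval) :=
  Measure.infinitePi fun _ => (volume : Measure unitInterval)

/-- The random value `X_p` at the prime `p`: it is `1` if `ω_p < ρ_p/2`, it is `-1` if
`ρ_p/2 ≤ ω_p < ρ_p`, and `0` otherwise. -/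
noncomputable def rand (ω : Nat.Primes → unitInterval) (p : ℕ) : ℤ :=
  if h : p.Prime then
    (if (ω ⟨p, h⟩ : ℝ) < ρ p / 2 then 1 else if (ω ⟨p, h⟩ : ℝ) < ρ p then -1 else 0) else 1

/-- The random multiplicative function `∏_p X_p^{v_p(n)}`. -/
noncomputable def random (ω : Nat.Primes → unitInterval) (n : ℕ) : ℂ :=
  n.factorization.prod fun p k => ((rand ω p : ℤ) : ℂ) ^ k

/-- The mean value of `f` at the values `L(P ⊗ χ_d, s)`, for the squarefree `d ≠ 1` with `|d| ≤ x`. -/
noncomputable def mean {K : Type} [Field K] [NumberField K] (P : HeightOneSpectrum (𝓞 K) → ℂ[X])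
    (f : ℂ → ℝ) (s : ℂ) (x : ℕ) : ℝ :=
  ((fields x).card : ℝ)⁻¹ * ∑ d ∈ fields x, f (L P (quad d) s)

/-- The expected value of `f` at the random Euler product. -/
noncomputable def expect {K : Type} [Field K] [NumberField K] (P : HeightOneSpectrum (𝓞 K) → ℂ[X])
    (f : ℂ → ℝ) (s : ℂ) : ℝ := ∫ ω, f (L P (random ω) s) ∂unif

/-- **The distribution of `L(X ⊗ χ_d, s)` near `s = m + 1`.**  Let the `P_v` be Euler factors over a number
field `K`, of degree at most `N` and weight at most `2m`.

(1) For every real `t` there is a probability measure `ν` on the complex plane with `ν({0}) = 0` such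
that for every bounded continuous function `f`, every `0 < c < 1/8` and every `η > 0` there are `x₀` and
`ε₀ > 0` with the following property: if `x ≥ x₀` and `exp(-x^c) ≤ ε ≤ ε₀`, then the mean value of
`f(L(P ⊗ χ_d, m + 1 + ε + it))` over the squarefree `d ≠ 1` with `|d| ≤ x` differs from `∫ f dν` by at most
`η`, and for all `0 < ε ≤ ε₀` so does the expected value of `f` at the random Euler product at
`m + 1 + ε + it`.

(2) Let `A ≥ 1`, `0 < c < 1/8`, let `f` be a bounded continuous function and `η > 0`.  There are `B` and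
`x₀` such that for `x ≥ x₀`, `|t| ≤ x^A` and `exp(-x^c) ≤ ε ≤ 1/2` the mean value differs from the expected
value of `f` at the random Euler product at `m + 1 + ε + it` by at most `η`, and
`|log |L(P ⊗ χ_d, m + 1 + ε + it)|| ≤ B` for all but a proportion `η` of the `d`. -/
theorem result (K : Type) [Field K] [NumberField K] (N m : ℕ)
    (P : HeightOneSpectrum (𝓞 K) → ℂ[X]) (hP : HasWeights P N m) :
    (∀ t : ℝ, ∃ ν : Measure ℂ, IsProbabilityMeasure ν ∧ ν {0} = 0 ∧
      ∀ (f : BoundedContinuousFunction ℂ ℝ) (c η : ℝ), 0 < c → c < 1 / 8 → 0 < η →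
        ∃ (x₀ : ℕ) (ε₀ : ℝ), 0 < ε₀ ∧
          (∀ x : ℕ, x₀ ≤ x → ∀ ε : ℝ, Real.exp (-(x : ℝ) ^ c) ≤ ε → ε ≤ ε₀ →
            |mean P f (m + 1 + ε + t * Complex.I) x - ∫ z, f z ∂ν| ≤ η) ∧
          (∀ ε : ℝ, 0 < ε → ε ≤ ε₀ →
            |expect P f (m + 1 + ε + t * Complex.I) - ∫ z, f z ∂ν| ≤ η)) ∧
    (∀ (A c : ℝ), 1 ≤ A → 0 < c → c < 1 / 8 → ∀ (f : BoundedContinuousFunction ℂ ℝ) (η : ℝ), 0 < η →
      ∃ (B : ℝ) (x₀ : ℕ), ∀ x : ℕ, x₀ ≤ x → ∀ t : ℝ, |t| ≤ (x : ℝ) ^ A →
        ∀ ε : ℝ, Real.exp (-(x : ℝ) ^ c) ≤ ε → ε ≤ 1 / 2 →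
          |mean P f (m + 1 + ε + t * Complex.I) x - expect P f (m + 1 + ε + t * Complex.I)| ≤ η ∧
          (({d : ℤ | d ∈ fields x ∧
            B < |Real.log ‖L P (quad d) (m + 1 + ε + t * Complex.I)‖|}.ncard : ℕ) : ℝ) ≤
            η * (fields x).card) := by
  open Pool.Agent.H439.LL Pool.Agent.H439.QD in
  classical
  have hW : HW P N ((2 * m : ℕ) : ℝ) := ⟨hP.coeff_zero, hP.natDegree_le, fun v z hz => by
    have := hP.le_norm v z hz
    have e : -(((2 * m : ℕ) : ℝ) / 2) = -(m : ℝ) := by push_cast; ring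
    rw [e]
    exact this⟩
  have hfields : ∀ x, fields x = SF x := fun x => rfl
  have key : ∀ (g : ℕ → ℂ) (t ε : ℝ), L P g (m + 1 + ε + t * Complex.I) =
      LG P (fun n => g n * Pool.Agent.H439.LS.ph (-t) n)
        (1 + (((2 * m : ℕ) : ℝ) : ℂ) / 2 + (ε : ℂ)) := by
    intro g t ε
    unfold L LG
    apply tprod_congr
    intro v
    congr 2
    have hpos : 0 < Pool.Agent.TH339.MP.nm v := by
      have := nm_ge_two v
      have h0 : (0 : ℝ) < (Pool.Agent.TH339.MP.nm v : ℝ) := by linarith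
      exact_mod_cast h0
    have hne : ((Pool.Agent.TH339.MP.nm v : ℕ) : ℂ) ≠ 0 := by exact_mod_cast hpos.ne'
    change g (Pool.Agent.TH339.MP.nm v) *
      ((Pool.Agent.TH339.MP.nm v : ℕ) : ℂ) ^ (-(m + 1 + ε + t * Complex.I)) =
      g (Pool.Agent.TH339.MP.nm v) * Pool.Agent.H439.LS.ph (-t) (Pool.Agent.TH339.MP.nm v) *
        ((Pool.Agent.TH339.MP.nm v : ℕ) : ℂ) ^ (-(1 + (((2 * m : ℕ) : ℝ) : ℂ) / 2 + (ε : ℂ)))
    unfold Pool.Agent.H439.LS.ph
    rw [mul_assoc, ← Complex.cpow_add _ _ hne]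
    congr 2
    push_cast
    ring
  have hq : ∀ (d : ℤ) (t ε : ℝ), L P (quad d) (m + 1 + ε + t * Complex.I) =
      LG P (qg d t) (1 + (((2 * m : ℕ) : ℝ) : ℂ) / 2 + (ε : ℂ)) := by
    intro d t ε
    rw [key]
    rfl
  have hr : ∀ (ω : Nat.Primes → unitInterval) (t ε : ℝ),
      L P (random ω) (m + 1 + ε + t * Complex.I) =
      LG P (qX (fun n ω => rqf ω n) t ω) (1 + (((2 * m : ℕ) : ℝ) : ℂ) / 2 + (ε : ℂ)) := by
    intro ω t ε
    rw [key]
    congr 1
    funext n
    unfold qX random rqf
    congr 1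
    unfold Finsupp.prod
    push_cast
    rfl
  have hD : ∀ (f : BoundedContinuousFunction ℂ ℝ) (z : ℂ), |f z| ≤ ‖f‖ := fun f z => by
    rw [← Real.norm_eq_abs]; exact f.norm_coe_le_norm z
  have hmean : ∀ (f : BoundedContinuousFunction ℂ ℝ) (t ε : ℝ) (x : ℕ),
      mean P f (m + 1 + ε + t * Complex.I) x = ((SF x).card : ℝ)⁻¹ *
        ∑ d ∈ SF x, f (LG P (qg d t) (1 + (((2 * m : ℕ) : ℝ) : ℂ) / 2 + (ε : ℂ))) := by
    intro f t ε x
    unfold mean
    simp_rw [hq, hfields]
  have hexpect : ∀ (f : BoundedContinuousFunction ℂ ℝ) (t ε : ℝ),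
      expect P f (m + 1 + ε + t * Complex.I) =
        ∫ ω, f (LG P (qX (fun n ω => rqf ω n) t ω) (1 + (((2 * m : ℕ) : ℝ) : ℂ) / 2 + (ε : ℂ))) ∂pmu := by
    intro f t ε
    unfold expect
    simp_rw [hr]
    rfl
  constructor
  · intro t
    obtain ⟨ν, h0, h1, h2⟩ := dist_q hW t
    refine ⟨ν, h0, h1, fun f c η hc hc8 hη => ?_⟩
    obtain ⟨h3, h4⟩ := h2 f f.continuous ⟨‖f‖, hD f⟩
    obtain ⟨x₀, ε₀, hε₀, h5⟩ := h3 c hc hc8 η hη
    have h6 := h4 _ pmu _ model_q
    rw [Metric.tendsto_nhds] at h6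
    obtain ⟨ε₁, hε₁, h7⟩ := mem_nhdsGT_iff_exists_Ioc_subset.1 (h6 η hη)
    refine ⟨x₀, min ε₀ ε₁, lt_min hε₀ hε₁, fun x hx ε hε0 hε1 => ?_, fun ε hε0 hε1 => ?_⟩
    · rw [hmean]
      exact h5 x hx ε hε0 (hε1.trans (min_le_left _ _))
    · rw [hexpect]
      have h8 := h7 (show ε ∈ Set.Ioc 0 ε₁ from ⟨hε0, hε1.trans (min_le_right _ _)⟩)
      have h9 : dist (∫ ω, f (LG P (qX (fun n ω => rqf ω n) t ω)
        (1 + (((2 * m : ℕ) : ℝ) : ℂ) / 2 + (ε : ℂ))) ∂pmu) (∫ z, f z ∂ν) < η := h8
      rw [Real.dist_eq] at h9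
      exact h9.le
  · intro A c hA hc hc8 f η hη
    obtain ⟨X₁, h1⟩ := limit_law_q hW hA hc hc8 (f := f) f.continuous (hD f) hη
    obtain ⟨B, X₂, h2⟩ := tight_q hW hA hc hc8 hη
    refine ⟨B, max X₁ X₂, fun x hx t ht ε hε0 hε1 => ⟨?_, ?_⟩⟩
    · rw [hmean, hexpect]
      exact h1 x ((le_max_left _ _).trans hx) t ht ε hε0 hε1 _ pmu _ model_q
    · obtain ⟨E, hE, hE1, hE2⟩ := h2 x ((le_max_right _ _).trans hx) t ht ε hε0 hε1
      refine le_trans ?_ hE1
      have hsub : {d : ℤ | d ∈ fields x ∧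
          B < |Real.log ‖L P (quad d) (m + 1 + ε + t * Complex.I)‖|} ⊆ (E : Set ℤ) := by
        intro d hd
        by_contra hcon
        have h4 := hE2 d (by rw [← hfields]; exact hd.1) hcon
        rw [← hq] at h4
        exact absurd hd.2 (not_lt.2 h4)
      have h5 := Set.ncard_le_ncard hsub E.finite_toSet
      rw [Set.ncard_coe_finset] at h5
      exact_mod_cast h5

end Pool.Agent.Results.MP_058a58_ag.QuadraticBaseChange
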