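import Pool.Agent.H848.SH.Final

/-!
# The orders of all the L-functions of the tensor products of exterior powers of the cohomology

Let `X` be a smooth projective variety of dimension `d` over a number field `K`, `N i` its Betti
numbers.  For every sequence `w = ((i_1, k_1), …, (i_r, k_r))` of even weight `2m = ∑ i_j k_j` let
`L(w, s)` be the L-function of `Λ^{k_1} H^{i_1}(X) ⊗ ⋯ ⊗ Λ^{k_r} H^{i_r}(X)`, a direct factor of
`H^{2m}` of a power of `X`.  The question on the existence of the order of the pole at `s = m + 1` is
asked for all of them.

Theorem.  If the order `ρ(w) ∈ ℤ` exists for every `w` of even weight, then the function `w ↦ ρ(w)` is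
given by a formula of the type of Weyl's integration formula: there are finitely many elementary
functions `p_j` on the group of the characters of the torus of all families of Frobenius eigenvalues
(the Fourier coefficients of trigonometric polynomials, with integer coefficients and nonnegative
values, on closed subgroups of the torus), such that `∏ N_i! · ρ(w)` is the sum of the values of
`∑_j p_j` at the characters of the basis vectors, and `∑_j p_j(0) = ∏ N_i!`.  The same functions give
the limits of the (logarithmically weighted) averages of all the symmetrised characters of even weight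
of the normalised Frobenius eigenvalues, so there is a Sato–Tate law, and it is a finite sum of
measures of this type; the limits for the multiples `k l` of a character form an eventually periodic
sequence.
-/

set_option autoImplicit false

namespace Pool.Agent.Results.MP_058a58_ag.ShapeOfOrders

open NumberField IsDedekindDomain Filter Topology
open Pool.Agent.H848.SH

theorem result {K : Type} [Field K] [NumberField K] {n : ℕ}
    -- a projective variety over `K` and the numbers `d` and `N i`
    (X : Set (MvPolynomial (Fin n) (𝓞 K))) (d : ℕ) (N : ℕ → ℕ)
    -- the hypothesis: the order of `L(w, s)` exists for every `w` of even weight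
    (H : ∀ (r : ℕ) (w : Fin r → Fin (2 * d + 1) × ℕ), Even (weight w) →
      ∃ ρ : ℤ, HasPole X d N w ρ) :
    ∃ (t : ℕ) (p : Fin t → Char d N → ℤ),
      -- finitely many elementary functions
      (∀ j, IsElementary (p j)) ∧
      -- of total mass `∏ N_i!`
      ∑ j, p j 0 = ∏ i : Fin (2 * d + 1), ((N i).factorial : ℤ) ∧
      -- determine the orders of all the L-functions
      (∀ (r : ℕ) (w : Fin r → Fin (2 * d + 1) × ℕ) (ρ : ℤ), Even (weight w) →
        HasPole X d N w ρ →
        (∏ i : Fin (2 * d + 1), ((N i).factorial : ℤ)) * ρ =
          ∑ S ∈ basis N w, ∑ j, p j (char w S)) ∧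
      -- and the distribution of the Frobenius eigenvalues
      (∀ l : Char d N,
        Even (∑ y : (i : Fin (2 * d + 1)) × Fin (N i), ((y.1 : ℕ) : ℤ) * l y) →
        ∀ α : HeightOneSpectrum (𝓞 K) → ∀ i : Fin (2 * d + 1), Fin (N i) → ℂ,
          (∀ᶠ v in cofinite, IsFrobenius X d N v (α v)) →
          Tendsto (fun ε : ℝ => (∑' v : HeightOneSpectrum (𝓞 K), symTrace l (α v) *
            (Ideal.absNorm v.asIdeal : ℝ) ^ (-(1 + ε))) / Real.log (1 / ε)) (𝓝[>] 0)
            (𝓝 ((∑ j, p j l : ℤ) : ℝ))) ∧
      -- and the limits for the multiples of a character are eventually periodic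
      ∀ l : Char d N, ∃ T : ℕ, 1 ≤ T ∧ ∃ k₀ : ℕ, ∀ k ≥ k₀,
        ∑ j, p j ((k + T) • l) = ∑ j, p j (k • l) :=
  shape H

end Pool.Agent.Results.MP_058a58_ag.ShapeOfOrders
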